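import Pool.Agent.Lib.MP_38ebc3_co.Small

open Pool.Agent.MP38ebc3

/-- Sets of mutually orthogonal latin triangles of order `n`.

1. For odd `n ≥ 5` such a set has at most `n - 4` members.
2. For even `n ≥ 6` such a set has at most `n - 5` members.
3. For all orders `n ≤ 10` for which a latin triangle exists the maximum size is
   `N(1) = 1`, `N(2) = 6`, `N(3) = 1`, `N(5) = 1`, `N(7) = 3`, `N(8) = 1`, `N(9) = 1`.
4. `N(11) ≥ 2`, `N(12) ≥ 3`, `N(13) ≥ 2`, `N(14) ≥ 2`, `N(15) ≥ 2`. -/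
theorem Pool.Agent.Results.MP_38ebc3_co.SmallOrders.result :
    (∀ n : ℕ, Odd n → 5 ≤ n → ∀ F : Finset (Cell n → Fin (2 * (n / 2) + 1)),
      IsMOLT n F → F.card ≤ n - 4) ∧
    (∀ n : ℕ, Even n → 6 ≤ n → ∀ F : Finset (Cell n → Fin (2 * (n / 2) + 1)),
      IsMOLT n F → F.card ≤ n - 5) ∧
    (IsMaxMOLT 1 1 ∧ IsMaxMOLT 2 6 ∧ IsMaxMOLT 3 1 ∧ IsMaxMOLT 5 1 ∧ IsMaxMOLT 7 3 ∧
      IsMaxMOLT 8 1 ∧ IsMaxMOLT 9 1) ∧
    ((∃ F : Finset (Cell 11 → Fin (2 * (11 / 2) + 1)), IsMOLT 11 F ∧ F.card = 2) ∧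
      (∃ F : Finset (Cell 12 → Fin (2 * (12 / 2) + 1)), IsMOLT 12 F ∧ F.card = 3) ∧
      (∃ F : Finset (Cell 13 → Fin (2 * (13 / 2) + 1)), IsMOLT 13 F ∧ F.card = 2) ∧
      (∃ F : Finset (Cell 14 → Fin (2 * (14 / 2) + 1)), IsMOLT 14 F ∧ F.card = 2) ∧
      (∃ F : Finset (Cell 15 → Fin (2 * (15 / 2) + 1)), IsMOLT 15 F ∧ F.card = 2)) :=
  ⟨fun _ h1 h2 F hF => upper_odd h1 h2 F hF, fun _ h1 h2 F hF => upper_even h1 h2 F hF,
    ⟨max_one, max_two, max_three, max_five, max_seven, max_eight, max_nine⟩,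
    ⟨lower_11, lower_12, lower_13, lower_14, lower_15⟩⟩
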